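import Pool.Agent.R684.PN.Stm
import Pool.Agent.R928.PNCLO
import Pool.Agent.R372.VG.TR

set_option autoImplicit false
set_option linter.unusedSectionVars false

/-!
# The finite level
-/

open scoped InnerProductSpace InnerProduct ENNReal

namespace Pool.Agent.U52.PN

open Pool.Agent.W649.ZL Pool.Agent.R684.PN

theorem coc_one {Γ G : Type} [Group Γ] [Group G] {q : Γ →* G} {c : Γ → G → ℂ} (hc : Coc q c)
    (x : G) : c 1 x = 0 := by
  have h := hc 1 1 x
  rw [mul_one, map_one, inv_one, one_mul] at h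
  simpa using h

theorem DD_coc {Γ G S : Type} [Group Γ] [Group G] {q : Γ →* G} {c : Γ → G → ℂ} (hc : Coc q c)
    (σ : S → Γ) (f : G × S → ℂ) (hf : ∀ x s, f (x, s) = c (σ s) x) (L : List S) (x : G) :
    DD (fun s => q (σ s)) L f x = c (L.map σ).prod x := by
  induction L generalizing x with
  | nil => simp [DD, coc_one hc]
  | cons s L ih => rw [DD, ih, hf, List.map_cons, List.prod_cons, hc]

/-- the space of all functions -/
theorem card_le {Γ G S : Type} [Group Γ] [Group G] [Finite G] [Fintype S] (σ : S → Γ)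
    (q : Γ →* G) (s₁ s₂ : S) (_h12 : s₁ ≠ s₂) (L₀ : List S)
    (h : ∀ e₁ e₂ : G → ℂ, ∃ c : Γ → G → ℂ, Coc q c ∧ c (σ s₁) = e₁ ∧ c (σ s₂) = e₂) :
    Nat.card G ≤ Module.finrank ℂ (UU σ q {L₀}) := by
  classical
  haveI := Fintype.ofFinite G
  haveI : FiniteDimensional ℂ (EE G S) := Pool.Agent.R372.VG.TR.fin_dim
  set V : Submodule ℂ (EE G S) := UU σ q ∅ with hV
  let Ψ : V →ₗ[ℂ] (G → ℂ) :=
    { toFun := fun f x => DD (fun s => q (σ s)) L₀ f.1 x
      map_add' := fun f g => by
        funext x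
        change DD _ L₀ ((f.1 + g.1 : EE G S) : G × S → ℂ) x = _
        rw [lp.coeFn_add, DD_add]; rfl
      map_smul' := fun a f => by
        funext x
        change DD _ L₀ ((a • f.1 : EE G S) : G × S → ℂ) x = _
        rw [lp.coeFn_smul, DD_smul]; rfl }
  let Φ : V →ₗ[ℂ] (G → ℂ) × (G → ℂ) :=
    { toFun := fun f => (fun x => f.1 (x, s₁), fun x => f.1 (x, s₂))
      map_add' := fun f g => rfl
      map_smul' := fun a f => rfl }
  have hΦ : Function.Surjective Φ := by
    rintro ⟨e₁, e₂⟩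
    obtain ⟨c, hc, hc1, hc2⟩ := h e₁ e₂
    have hmem : Memℓp (fun p : G × S => c (σ p.2) p.1) 2 := memℓp_gen' (C := ∑ p : G × S,
      ‖c (σ p.2) p.1‖ ^ (2 : ℝ≥0∞).toReal) (fun s => by
        refine Finset.sum_le_sum_of_subset_of_nonneg (Finset.subset_univ _) fun i _ _ => ?_
        positivity)
    set f : EE G S := ⟨fun p : G × S => c (σ p.2) p.1, hmem⟩ with hf
    have hfx : ∀ x s, (f : G × S → ℂ) (x, s) = c (σ s) x := fun x s => rfl
    have hfV : f ∈ V := by
      rw [hV, mem_UU]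
      refine ⟨fun L L' hL x => ?_, fun L hL => absurd hL (Set.notMem_empty _)⟩
      rw [DD_coc hc σ f hfx, DD_coc hc σ f hfx, hL]
    refine ⟨⟨f, hfV⟩, ?_⟩
    change ((fun x => f (x, s₁)), (fun x => f (x, s₂))) = (e₁, e₂)
    simp only [hfx]
    rw [← hc1, ← hc2]
  have h1 : 2 * Fintype.card G ≤ Module.finrank ℂ V := by
    have := LinearMap.finrank_le_finrank_of_surjective (f := Φ) hΦ
    simpa [two_mul] using this
  have h2 := LinearMap.finrank_range_add_finrank_ker Ψ
  have h3 : Module.finrank ℂ (LinearMap.range Ψ) ≤ Fintype.card G := by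
    have := Submodule.finrank_le (LinearMap.range Ψ)
    simpa using this
  have h4 : Module.finrank ℂ (LinearMap.ker Ψ) ≤ Module.finrank ℂ (UU σ q {L₀}) := by
    have h5 : (LinearMap.ker Ψ).map V.subtype ≤ UU σ q {L₀} := by
      rintro _ ⟨f, hf, rfl⟩
      rw [mem_UU]
      refine ⟨((mem_UU _ _ _ _).1 f.2).1, fun L hL x => ?_⟩
      rw [Set.mem_singleton_iff] at hL
      subst hL
      exact congrFun (LinearMap.mem_ker.1 hf) x
    have h6 := Submodule.finrank_mono h5
    rwa [Submodule.finrank_map_subtype_eq] at h6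
  rw [Nat.card_eq_fintype_card]
  omega

theorem t_FIN : S_FIN := by
  classical
  intro Γ G S _ _ _ _ σ q s₁ s₂ h12 L₀ h
  haveI := Fintype.ofFinite G
  obtain ⟨hcl, hinv⟩ := Pool.Agent.R928.PNCLO.t_CLO Γ G S σ q {L₀}
  set U : Submodule ℂ (EE G S) := UU σ q {L₀} with hU
  haveI : CompleteSpace U := hcl.completeSpace_coe
  haveI : FiniteDimensional ℂ (EE G S) := Pool.Agent.R372.VG.TR.fin_dim
  have h1 : Nat.card G ≤ Module.finrank ℂ U := card_le σ q s₁ s₂ h12 L₀ h
  have h2 : (Module.finrank ℂ U : ℝ) = vd U * Nat.card G := by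
    rw [← Pool.Agent.R372.VG.TR.sum_proj U, vd_eq U U (topcl_eq hcl), Fintype.sum_prod_type]
    have h2 : ∀ (x : G) (s : S), ‖U.starProjection (dl (x, s))‖ ^ 2 =
        ‖U.starProjection (dl ((1 : G), s))‖ ^ 2 := by
      intro x s
      have e : (dl (x, s) : EE G S) = tr x⁻¹ (dl ((1 : G), s)) := by
        rw [tr_dl, one_mul, inv_inv]
      rw [e, proj_tr hinv, norm_tr]
    simp only [h2]
    rw [Finset.sum_const, Finset.card_univ, nsmul_eq_mul, Nat.card_eq_fintype_card, mul_comm]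
  have h3 : (Nat.card G : ℝ) ≤ vd U * Nat.card G := by
    rw [← h2]
    exact_mod_cast h1
  have h4 : (0 : ℝ) < Nat.card G := by
    exact_mod_cast Nat.card_pos
  nlinarith

end Pool.Agent.U52.PN
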