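import Pool.Agent.U52.PN.Cmp
import Pool.Agent.U52.PN.Fin
import Pool.Agent.R684.PN.Injc
import Pool.Agent.R372.VG.LIMG

set_option autoImplicit false
set_option linter.unusedSectionVars false

/-!
# A bound for the index of finitely generated commensurated subgroups
-/

namespace Pool.Agent.U52.PN

open Pool.Agent.W649.ZL Pool.Agent.R684.PN

/-- `Γ` has, for every finite subset `T`, a finite quotient injective on `T` such that derivations
with values in its group ring can be prescribed at `x₁` and `x₂`. -/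
def Rich (Γ : Type) [Group Γ] (x₁ x₂ : Γ) : Prop :=
  ∀ T : Finset Γ, ∃ (G : Type) (_ : Group G) (_ : Finite G) (q : Γ →* G), Set.InjOn q T ∧
    ∀ e₁ e₂ : G → ℂ, ∃ c : Γ → G → ℂ, Coc q c ∧ c x₁ = e₁ ∧ c x₂ = e₂

theorem index_bound {Γ S J : Type} [Group Γ] [Fintype S] [Fintype J] (σ : S → Γ)
    (hσ : ∀ g : Γ, ∃ L : List S, (L.map σ).prod = g) (s₁ s₂ : S) (h12 : s₁ ≠ s₂)
    (hR : Rich Γ (σ s₁) (σ s₂)) (N : Subgroup Γ)
    (hN : ∀ g : Γ, (N.map (MulAut.conj g).toMonoidHom).relIndex N ≠ 0) (y : J → Γ)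
    (hy : Subgroup.closure (Set.range y) = N) (n₀ : Γ) (hn₀ : n₀ ∈ N) (hn₀' : ¬ IsOfFinOrder n₀)
    (m : ℕ) (g : Fin m → Γ) (hg : ∀ t t' : Fin m, ∀ h ∈ N, g t * h = g t' → t = t') :
    m ≤ Fintype.card J := by
  classical
  choose W hW using hσ
  set L₀ := W n₀ with hL₀
  set U : Submodule ℂ (EE Γ S) := UU σ (MonoidHom.id Γ) {L₀} with hU
  obtain ⟨hcl, hinv⟩ := Pool.Agent.R928.PNCLO.t_CLO Γ Γ S σ (MonoidHom.id Γ) {L₀}
  have h1 : (1 : ℝ) ≤ vd U := by
    apply Pool.Agent.R372.VG.LIMG.t_LIMG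
    intro T
    obtain ⟨G, i1, i2, q, hq, hd⟩ := hR T
    exact ⟨G, i1, q, hq, t_FIN Γ G S σ q s₁ s₂ h12 L₀ hd⟩
  obtain ⟨B, hB⟩ := Pool.Agent.R787.PNOP.t_OP Γ N S J σ N.subtype N.subtype_injective
    (fun j => W (y j))
  have h2 := t_CMP Γ N S J N.subtype N.subtype_injective U hcl hinv B ?_ ?_ m g ?_
  · have h3 : (m : ℝ) ≤ Fintype.card J := by
      have : (0 : ℝ) ≤ m := by positivity
      nlinarith
    exact_mod_cast h3
  · intro k f
    ext ⟨h, j⟩
    rw [hB, tr_apply, hB, Pool.Agent.R928.PNCLO.DD_tr, map_mul]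
  · intro f hf hf0
    refine injc σ (fun g => ⟨W g, hW g⟩) N hN (fun j => W (y j)) ?_ L₀ ?_ ?_ f hf ?_
    · have : (fun j => (((W (y j)).map σ).prod)) = y := by
        funext j
        exact hW (y j)
      rw [this, hy]
    · rw [hL₀, hW]; exact hn₀
    · rw [hL₀, hW]; exact hn₀'
    · intro n j
      have h3 := hB f n j
      rw [hf0] at h3
      exact h3.symm
  · intro t t' h hh
    exact hg t t' h h.2 hh

/-- words in a finite symmetric set -/
theorem exists_words {G : Type} [Group G] (W : Finset G) (hW : ∀ w ∈ W, w⁻¹ ∈ W) (Γ : Subgroup G)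
    (hΓ : Subgroup.closure (W : Set G) = Γ) :
    ∃ σ : W → Γ, (∀ w, (σ w : G) = w) ∧ ∀ g : Γ, ∃ L : List W, (L.map σ).prod = g := by
  classical
  have hmem : ∀ w : W, (w : G) ∈ Γ := fun w => by
    rw [← hΓ]; exact Subgroup.subset_closure w.2
  refine ⟨fun w => ⟨w, hmem w⟩, fun w => rfl, fun g => ?_⟩
  have hg : (g : G) ∈ Subgroup.closure (W : Set G) := by rw [hΓ]; exact g.2
  rw [← Subgroup.mem_toSubmonoid, Subgroup.closure_toSubmonoid] at hg
  obtain ⟨l, hl, hlg⟩ := Submonoid.exists_list_of_mem_closure hg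
  have hl' : ∀ x ∈ l, x ∈ W := by
    intro x hx
    rcases hl x hx with h | h
    · exact h
    · have := hW _ h
      simpa using this
  refine ⟨l.attach.map fun x => ⟨x.1, hl' x.1 x.2⟩, ?_⟩
  apply Subtype.ext
  rw [← hlg]
  have h2 : ((((l.attach.map fun x => (⟨x.1, hl' x.1 x.2⟩ : W)).map
      fun w : W => (⟨w, hmem w⟩ : Γ)).prod : Γ) : G) =
      (((l.attach.map fun x => (⟨x.1, hl' x.1 x.2⟩ : W)).map
      fun w : W => (⟨w, hmem w⟩ : Γ)).map Γ.subtype).prod := by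
    rw [← map_list_prod]
    rfl
  rw [h2, List.map_map, List.map_map]
  congr 1
  conv_rhs => rw [← List.attach_map_subtype_val l]
  rfl

end Pool.Agent.U52.PN
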