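import Pool.Agent.R684.PN.Stm
import Pool.Agent.R787.PNOP

set_option autoImplicit false
set_option linter.unusedSectionVars false

/-!
# Comparison of von Neumann dimensions for a subgroup
-/

open scoped InnerProductSpace InnerProduct ENNReal

namespace Pool.Agent.U52.PN

open Pool.Agent.W649.ZL Pool.Agent.R684.PN Pool.Agent.R787.PNOP

section comp
variable {A B : Type}

theorem mem_cmp (e : B → A) (he : Function.Injective e) (f : lp (fun _ : A => ℂ) 2) :
    Memℓp (fun x : B => f (e x)) 2 := by
  rw [memlp_two_iff]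
  exact ((memlp_two_iff _).1 f.2).comp_injective he

/-- composition with an injection -/
noncomputable def cmpFun (e : B → A) (he : Function.Injective e) (f : lp (fun _ : A => ℂ) 2) :
    lp (fun _ : B => ℂ) 2 := ⟨fun x => f (e x), mem_cmp e he f⟩

theorem norm_cmpFun_le (e : B → A) (he : Function.Injective e) (f : lp (fun _ : A => ℂ) 2) :
    ‖cmpFun e he f‖ ≤ ‖f‖ := by
  have key : ‖cmpFun e he f‖ ^ 2 ≤ ‖f‖ ^ 2 := by
    rw [nsq, nsq]
    have h1 := (memlp_two_iff _).1 f.2
    have e1 : (fun x : B => ‖cmpFun e he f x‖ ^ 2) = (fun y : A => ‖f y‖ ^ 2) ∘ e := rfl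
    rw [e1]
    exact tsum_comp_le_tsum_of_inj h1 (fun _ => by positivity) he
  exact (sq_le_sq₀ (norm_nonneg _) (norm_nonneg _)).1 key

/-- composition with an injection, as a bounded operator -/
noncomputable def cmp (e : B → A) (he : Function.Injective e) :
    lp (fun _ : A => ℂ) 2 →L[ℂ] lp (fun _ : B => ℂ) 2 :=
  LinearMap.mkContinuous
    { toFun := cmpFun e he
      map_add' := fun f g => by
        ext x
        change (f + g) (e x) = f (e x) + g (e x)
        rfl
      map_smul' := fun c f => by
        ext x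
        change (c • f) (e x) = c • f (e x)
        rfl } 1
    (fun h => by rw [one_mul]; exact norm_cmpFun_le e he h)

theorem cmp_apply (e : B → A) (he : Function.Injective e) (f : lp (fun _ : A => ℂ) 2) (x : B) :
    cmp e he f x = f (e x) := rfl

theorem norm_cmp_le (e : B → A) (he : Function.Injective e) (f : lp (fun _ : A => ℂ) 2) :
    ‖cmp e he f‖ ≤ ‖f‖ := norm_cmpFun_le e he f

end comp

theorem t_CMP : S_CMP := by
  classical
  intro Γ H S J _ _ _ _ ι hι U hcl hinv B hB hinj m g hg
  have : CompleteSpace U := hcl.completeSpace_coe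
  -- the restriction to the cosets
  set e : H × (Fin m × S) → Γ × S := fun x => (g x.2.1 * ι x.1, x.2.2) with he
  have hei : Function.Injective e := by
    rintro ⟨h, t, s⟩ ⟨h', t', s'⟩ hh
    simp only [he, Prod.mk.injEq] at hh
    obtain ⟨h1, h2⟩ := hh
    have h3 : g t * ι (h * h'⁻¹) = g t' := by
      rw [map_mul, map_inv, ← mul_assoc, h1]
      simp
    have h4 := hg _ _ _ h3
    subst h4
    have h5 : ι h = ι h' := mul_left_cancel h1
    rw [hι h5, h2]
  set R : EE Γ S →L[ℂ] EE H (Fin m × S) := cmp e hei with hR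
  have hRa : ∀ (f : EE Γ S) (h : H) (t : Fin m) (s : S), R f (h, (t, s)) = f (g t * ι h, s) :=
    fun f h t s => rfl
  set T : EE Γ S →L[ℂ] EE H J := B.comp U.starProjection with hT
  set T' : EE H J →L[ℂ] EE Γ S := ContinuousLinearMap.adjoint T with hT'
  have hTe : ∀ (k : H) (f : EE Γ S), T (tr (ι k) f) = tr k (T f) := by
    intro k f
    rw [hT, ContinuousLinearMap.comp_apply, ContinuousLinearMap.comp_apply, proj_tr hinv, hB]
  have hTe' : ∀ (k : H) (f : EE H J), T' (tr k f) = tr (ι k) (T' f) := by
    intro k f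
    apply ext_inner_right ℂ
    intro v
    rw [hT', ContinuousLinearMap.adjoint_inner_left, inner_tr_left, inner_tr_left,
      ContinuousLinearMap.adjoint_inner_left, ← map_inv, hTe]
  set Q : EE H J →L[ℂ] EE H (Fin m × S) := R.comp T' with hQ
  have hQe : Eqv Q := by
    intro k f
    rw [hQ, ContinuousLinearMap.comp_apply, ContinuousLinearMap.comp_apply, hTe']
    ext ⟨h, t, s⟩
    rw [hRa, tr_apply, tr_apply, hRa]
    simp only [map_mul, mul_assoc]
  set Z := LinearMap.range (Q : EE H J →ₗ[ℂ] EE H (Fin m × S)) with hZ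
  -- the closure of the range of `T'`
  have hker : (LinearMap.ker (T : EE Γ S →ₗ[ℂ] EE H J))ᗮ = U := by
    apply le_antisymm
    · intro x hx
      rw [Submodule.mem_orthogonal] at hx
      have h2 : x ∈ Uᗮᗮ := by
        rw [Submodule.mem_orthogonal]
        intro y hy
        apply hx
        change B (U.starProjection y) = 0
        have : U.starProjection y = 0 := (Submodule.starProjection_apply_eq_zero_iff U).2 hy
        rw [this, map_zero]
      rw [Submodule.orthogonal_orthogonal] at h2
      exact h2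
    · intro x hx
      rw [Submodule.mem_orthogonal]
      intro y hy
      have hy' : B (U.starProjection y) = 0 := hy
      have h1 := hinj _ (Submodule.starProjection_apply_mem _ _) hy'
      have h2 : ⟪y - U.starProjection y, x⟫_ℂ = 0 := Submodule.starProjection_inner_eq_zero y x hx
      rw [h1, sub_zero] at h2
      exact h2
  have hclr : (LinearMap.range (T' : EE H J →ₗ[ℂ] EE Γ S)).topologicalClosure = U := by
    rw [← hker]
    exact (ContinuousLinearMap.orthogonal_ker T).symm
  have hRU : ∀ u ∈ U, R u ∈ Z.topologicalClosure := by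
    intro u hu
    rw [← hclr, ← SetLike.mem_coe, Submodule.topologicalClosure_coe] at hu
    rw [← SetLike.mem_coe, Submodule.topologicalClosure_coe]
    refine map_mem_closure R.continuous hu ?_
    rintro y ⟨x, rfl⟩
    exact ⟨x, rfl⟩
  -- comparison of the projections
  have hcomp : ∀ (t : Fin m) (s : S), ‖U.starProjection (dl (g t, s))‖ ^ 2 ≤
      ‖Z.topologicalClosure.starProjection (dl ((1 : H), (t, s)))‖ ^ 2 := by
    intro t s
    set u := U.starProjection (dl (g t, s)) with hu
    set d : EE H (Fin m × S) := dl ((1 : H), (t, s)) with hd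
    have hmem : u ∈ U := Submodule.starProjection_apply_mem _ _
    have h1 : ⟪u, u⟫_ℂ = ⟪Z.topologicalClosure.starProjection d, R u⟫_ℂ := by
      have a1 : ⟪(dl (g t, s) : EE Γ S) - u, u⟫_ℂ = 0 :=
        Submodule.starProjection_inner_eq_zero _ _ hmem
      rw [inner_sub_left, sub_eq_zero, inner_dl_left] at a1
      have a2 : ⟪d - Z.topologicalClosure.starProjection d, R u⟫_ℂ = 0 :=
        Submodule.starProjection_inner_eq_zero _ _ (hRU u hmem)
      rw [inner_sub_left, sub_eq_zero, hd, inner_dl_left, hRa, map_one, mul_one] at a2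
      rw [← a1, a2]
    have h2 : ‖u‖ ^ 2 ≤ ‖Z.topologicalClosure.starProjection d‖ * ‖u‖ := by
      have a3 : (‖u‖ ^ 2 : ℝ) = ‖⟪u, u⟫_ℂ‖ := by
        rw [inner_self_eq_norm_sq_to_K]
        simp
      rw [a3, h1]
      refine (norm_inner_le_norm _ _).trans ?_
      gcongr
      exact norm_cmp_le e hei u
    by_cases h0 : ‖u‖ = 0
    · rw [h0, zero_pow two_ne_zero]
      positivity
    · have hpos : 0 < ‖u‖ := lt_of_le_of_ne (norm_nonneg _) (Ne.symm h0)
      have h3 : ‖u‖ ≤ ‖Z.topologicalClosure.starProjection d‖ := by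
        rw [sq] at h2
        exact le_of_mul_le_mul_right h2 hpos
      gcongr
  have hvd : (m : ℝ) * vd U = ∑ x : Fin m × S, ‖U.starProjection (dl (g x.1, x.2))‖ ^ 2 := by
    rw [vd_eq U U (topcl_eq hcl), Fintype.sum_prod_type]
    have h2 : ∀ (x : Fin m) (s : S), ‖U.starProjection (dl (g x, s))‖ ^ 2 =
        ‖U.starProjection (dl ((1 : Γ), s))‖ ^ 2 := by
      intro x s
      have e : (dl (g x, s) : EE Γ S) = tr (g x)⁻¹ (dl ((1 : Γ), s)) := by
        rw [tr_dl, one_mul, inv_inv]
      rw [e, proj_tr hinv, norm_tr]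
    simp only [h2]
    rw [Finset.sum_const, Finset.card_univ, nsmul_eq_mul, Fintype.card_fin]
  have hfin := rank_nullity Q hQe (U := ⊤) (fun _ _ _ => trivial) (by simp)
  rw [vd_top, top_inf_eq, Submodule.map_top] at hfin
  have hZv : vd Z ≤ Fintype.card J := by
    have := vd_nonneg (LinearMap.ker (Q : EE H J →ₗ[ℂ] EE H (Fin m × S)))
    linarith
  rw [hvd]
  refine le_trans ?_ hZv
  unfold vd
  exact Finset.sum_le_sum fun x _ => hcomp x.1 x.2

end Pool.Agent.U52.PN
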