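import Pool.Agent.R684.PN.Stm

set_option autoImplicit false
set_option linter.unusedSectionVars false

/-!
# Derivations with values in the group ring of a finite `p`-group
-/

namespace Pool.Agent.U52.PN

open Pool.Agent.W649.ZL Pool.Agent.R684.PN

section
variable {G : Type} [Group G]

/-- left translation of functions -/
def shiftAut (G A : Type) [Group G] [AddCommGroup A] : G →* MulAut (Multiplicative (G → A)) where
  toFun g :=
    { toFun := fun f => Multiplicative.ofAdd fun x => (Multiplicative.toAdd f) (g⁻¹ * x)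
      invFun := fun f => Multiplicative.ofAdd fun x => (Multiplicative.toAdd f) (g * x)
      left_inv := fun f => by
        apply Multiplicative.toAdd.injective
        funext x
        simp
      right_inv := fun f => by
        apply Multiplicative.toAdd.injective
        funext x
        simp
      map_mul' := fun f f' => rfl }
  map_one' := by
    refine MulEquiv.ext fun f => Multiplicative.toAdd.injective (funext fun x => ?_)
    change (Multiplicative.toAdd f) (1⁻¹ * x) = (Multiplicative.toAdd f) x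
    rw [inv_one, one_mul]
  map_mul' g h := by
    refine MulEquiv.ext fun f => Multiplicative.toAdd.injective (funext fun x => ?_)
    change (Multiplicative.toAdd f) ((g * h)⁻¹ * x) = (Multiplicative.toAdd f) (h⁻¹ * (g⁻¹ * x))
    rw [mul_inv_rev, mul_assoc]

theorem shiftAut_apply (A : Type) [AddCommGroup A] (g : G) (f : Multiplicative (G → A)) (x : G) :
    Multiplicative.toAdd (shiftAut G A g f) x = (Multiplicative.toAdd f) (g⁻¹ * x) := rfl

/-- the semidirect product is a finite `p`-group -/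
theorem isPGroup_semi (p : ℕ) [Fact p.Prime] [Finite G] (hG : IsPGroup p G) (k : ℕ) :
    Finite (Multiplicative (G → ZMod (p ^ k)) ⋊[shiftAut G (ZMod (p ^ k))] G) ∧
    IsPGroup p (Multiplicative (G → ZMod (p ^ k)) ⋊[shiftAut G (ZMod (p ^ k))] G) := by
  haveI : NeZero (p ^ k) := ⟨pow_ne_zero _ (Fact.out : p.Prime).ne_zero⟩
  have e : (Multiplicative (G → ZMod (p ^ k)) ⋊[shiftAut G (ZMod (p ^ k))] G) ≃
      Multiplicative (G → ZMod (p ^ k)) × G := SemidirectProduct.equivProd
  have h1 : Finite (Multiplicative (G → ZMod (p ^ k))) :=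
    inferInstanceAs (Finite (G → ZMod (p ^ k)))
  have h2 : Finite (Multiplicative (G → ZMod (p ^ k)) ⋊[shiftAut G (ZMod (p ^ k))] G) :=
    Finite.of_equiv _ e.symm
  refine ⟨h2, ?_⟩
  obtain ⟨n, hn⟩ := IsPGroup.iff_card.1 hG
  refine IsPGroup.of_card (n := k * Nat.card G + n) ?_
  rw [Nat.card_congr e, Nat.card_prod, hn]
  have h3 : Nat.card (Multiplicative (G → ZMod (p ^ k))) = (p ^ k) ^ Nat.card G := by
    have : Nat.card (Multiplicative (G → ZMod (p ^ k))) = Nat.card (G → ZMod (p ^ k)) := rfl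
    rw [this, Nat.card_fun, Nat.card_zmod]
  rw [h3, hn, ← pow_mul, ← pow_add]

end

/-- Derivations modulo `p ^ k`. -/
theorem der_mod (P X : Type) [Group P] (b : X → P)
    (hb : ∀ (E : Type) [Group E] [Group.IsNilpotent E] (e : X → E), ∃! h : P →* E, ∀ x, h (b x) = e x)
    (p : ℕ) [Fact p.Prime] (G : Type) [Group G] [Finite G] (hG : IsPGroup p G) (q : P →* G)
    (x₁ x₂ : X) (h12 : x₁ ≠ x₂) (k : ℕ) (ε₁ ε₂ : G → ZMod (p ^ k)) :
    ∃ c : P → G → ZMod (p ^ k), (∀ g h x, c (g * h) x = c g x + c h ((q g)⁻¹ * x)) ∧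
      c (b x₁) = ε₁ ∧ c (b x₂) = ε₂ := by
  classical
  obtain ⟨i1, i2⟩ := isPGroup_semi (G := G) p hG k
  haveI := i2.isNilpotent
  haveI := hG.isNilpotent
  let E := Multiplicative (G → ZMod (p ^ k)) ⋊[shiftAut G (ZMod (p ^ k))] G
  let e : X → E := fun x => ⟨if x = x₁ then Multiplicative.ofAdd ε₁ else
    if x = x₂ then Multiplicative.ofAdd ε₂ else 1, q (b x)⟩
  obtain ⟨h, hh, -⟩ := hb E e
  have hr : SemidirectProduct.rightHom.comp h = q := by
    obtain ⟨r, -, hr⟩ := hb G (fun x => q (b x))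
    rw [hr (SemidirectProduct.rightHom.comp h) (fun x => by
      change (h (b x)).right = q (b x)
      rw [hh]), hr q (fun x => rfl)]
  have hr' : ∀ g, (h g).right = q g := fun g => by
    rw [← hr]; rfl
  refine ⟨fun g => Multiplicative.toAdd (h g).left, ?_, ?_, ?_⟩
  · intro g g' x
    change Multiplicative.toAdd (h (g * g')).left x = Multiplicative.toAdd (h g).left x +
      Multiplicative.toAdd (h g').left ((q g)⁻¹ * x)
    rw [map_mul, SemidirectProduct.mul_left, toAdd_mul, Pi.add_apply, shiftAut_apply, hr']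
  · change Multiplicative.toAdd (h (b x₁)).left = ε₁
    rw [hh]
    simp [e]
  · change Multiplicative.toAdd (h (b x₂)).left = ε₂
    rw [hh]
    simp [e, h12.symm]

/-- a retraction of the product of the `ℤ/p^k` to `ℂ` -/
theorem exists_ret (p : ℕ) [Fact p.Prime] :
    ∃ l : (∀ k : ℕ, ZMod (p ^ k)) →+ ℂ, ∀ n : ℤ, l (fun k => (n : ZMod (p ^ k))) = n := by
  let j : ℤ →+ (∀ k : ℕ, ZMod (p ^ k)) :=
    { toFun := fun n k => (n : ZMod (p ^ k))
      map_zero' := by funext k; simp
      map_add' := fun a b => by funext k; simp }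
  have hj : Function.Injective j := by
    rw [injective_iff_map_eq_zero]
    intro n hn
    by_contra h0
    obtain ⟨m, hm⟩ : ∃ m : ℕ, n.natAbs < p ^ m :=
      ⟨n.natAbs, Nat.lt_pow_self (Fact.out : p.Prime).one_lt⟩
    have h1 : (n : ZMod (p ^ m)) = 0 := congrFun hn m
    rw [ZMod.intCast_zmod_eq_zero_iff_dvd] at h1
    have h2 := Int.natAbs_dvd_natAbs.2 h1
    rw [Int.natAbs_natCast] at h2
    have h3 := Nat.le_of_dvd (Int.natAbs_pos.2 h0) h2
    omega
  letI : DivisibleBy ℂ ℤ :=
    { div := fun a n => a / n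
      div_zero := fun a => by simp
      div_cancel := fun {n} a hn => by
        rw [zsmul_eq_mul]
        have : (n : ℂ) ≠ 0 := by exact_mod_cast hn
        field_simp }
  obtain ⟨l, hl⟩ := Module.Baer.extension_property_addMonoidHom (Module.Baer.of_divisible ℂ) j hj
    (Int.castAddHom ℂ)
  exact ⟨l, fun n => DFunLike.congr_fun hl n⟩

/-- Derivations with integral values at the basis. -/
theorem der_int (P X : Type) [Group P] (b : X → P)
    (hb : ∀ (E : Type) [Group E] [Group.IsNilpotent E] (e : X → E), ∃! h : P →* E, ∀ x, h (b x) = e x)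
    (p : ℕ) [Fact p.Prime] (G : Type) [Group G] [Finite G] (hG : IsPGroup p G) (q : P →* G)
    (x₁ x₂ : X) (h12 : x₁ ≠ x₂) (ε₁ ε₂ : G → ℤ) :
    ∃ c : P → G → ℂ, Coc q c ∧ c (b x₁) = (fun x => (ε₁ x : ℂ)) ∧
      c (b x₂) = (fun x => (ε₂ x : ℂ)) := by
  choose c hc1 hc2 hc3 using fun k : ℕ => der_mod P X b hb p G hG q x₁ x₂ h12 k
    (fun x => (ε₁ x : ZMod (p ^ k))) (fun x => (ε₂ x : ZMod (p ^ k)))
  obtain ⟨l, hl⟩ := exists_ret p
  refine ⟨fun g x => l fun k => c k g x, ?_, ?_, ?_⟩
  · intro g h x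
    change l (fun k => c k (g * h) x) = l (fun k => c k g x) + l (fun k => c k h ((q g)⁻¹ * x))
    rw [← map_add]
    exact congrArg l (funext fun k => hc1 k g h x)
  · funext x
    change l (fun k => c k (b x₁) x) = _
    rw [← hl]
    exact congrArg l (funext fun k => by rw [hc2])
  · funext x
    change l (fun k => c k (b x₂) x) = _
    rw [← hl]
    exact congrArg l (funext fun k => by rw [hc3])

theorem Coc.sum {Γ G ι : Type} [Group Γ] [Group G] (q : Γ →* G) (s : Finset ι)
    (c : ι → Γ → G → ℂ) (a : ι → ℂ) (hc : ∀ i, Coc q (c i)) :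
    Coc q (fun g x => ∑ i ∈ s, a i * c i g x) := by
  intro g h x
  simp only
  rw [← Finset.sum_add_distrib]
  refine Finset.sum_congr rfl fun i _ => ?_
  rw [hc i g h x]
  ring

theorem t_DER : S_DER := by
  classical
  intro P X _ b hb p _ G _ _ hG q x₁ x₂ h12 e₁ e₂
  haveI := Fintype.ofFinite G
  choose c1 h1 h1' h1'' using fun y : G => der_int P X b hb p G hG q x₁ x₂ h12
    (fun x => if x = y then 1 else 0) (fun _ => 0)
  choose c2 h2 h2' h2'' using fun y : G => der_int P X b hb p G hG q x₁ x₂ h12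
    (fun _ => 0) (fun x => if x = y then 1 else 0)
  refine ⟨fun g x => (∑ y, e₁ y * c1 y g x) + ∑ y, e₂ y * c2 y g x, ?_, ?_, ?_⟩
  · intro g h x
    have a1 := Coc.sum q Finset.univ c1 e₁ h1 g h x
    have a2 := Coc.sum q Finset.univ c2 e₂ h2 g h x
    simp only at a1 a2 ⊢
    rw [a1, a2]
    ring
  · funext x
    simp only [h1', h2']
    simp
  · funext x
    simp only [h1'', h2'']
    simp

end Pool.Agent.U52.PN
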