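import Pool.Agent.U52.PN.Nil

set_option autoImplicit false
set_option linter.unusedSectionVars false

/-!
# Parafree groups: prescribed homomorphisms to nilpotent groups, residual properties
-/

namespace Pool.Agent.U52.PN

open Pool.Agent.R684.PN
open scoped commutatorElement

theorem mk_mem_lc {G : Type} [Group G] (n k : ℕ) {g : G} (hg : g ∈ lc G k) :
    QuotientGroup.mk' (lc G n) g ∈ lc (G ⧸ lc G n) k := lc_map_mem _ k hg

theorem of_mk_mem_lc {G : Type} [Group G] {n k : ℕ} (hkn : k ≤ n) {g : G}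
    (hg : QuotientGroup.mk' (lc G n) g ∈ lc (G ⧸ lc G n) k) : g ∈ lc G k := by
  have h := lc_map_surj (QuotientGroup.mk' (lc G n)) (QuotientGroup.mk'_surjective _) k
  rw [← h] at hg
  obtain ⟨c, hc, hcg⟩ := hg
  have h1 : c⁻¹ * g ∈ lc G n := QuotientGroup.eq.1 hcg
  have h2 := (lc G k).mul_mem hc (lc_anti hkn h1)
  simpa using h2

/-- Facts about a basis of the abelianization of a group with the lower central quotients of a free
group. -/
theorem basis_facts (P X : Type) [Group P] (hP : SameLCQ P X) : ∃ φ : FreeGroup X →* P,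
    (∀ n (g : P), ∃ w, (φ w)⁻¹ * g ∈ lc P n) ∧ (∀ n w, φ w ∈ lc P n → w ∈ lc (FreeGroup X) n) := by
  classical
  obtain ⟨e1⟩ := hP 1
  choose b hb using fun x : X => QuotientGroup.mk'_surjective (lc P 1)
    (e1.symm (QuotientGroup.mk' (lc (FreeGroup X) 1) (FreeGroup.of x)))
  let φ : FreeGroup X →* P := FreeGroup.lift b
  have hφ1 : ∀ w, QuotientGroup.mk' (lc P 1) (φ w) =
      e1.symm (QuotientGroup.mk' (lc (FreeGroup X) 1) w) := by
    intro w
    have h : (QuotientGroup.mk' (lc P 1)).comp φ =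
        e1.symm.toMonoidHom.comp (QuotientGroup.mk' (lc (FreeGroup X) 1)) := by
      refine FreeGroup.ext_hom _ _ fun x => ?_
      change QuotientGroup.mk' (lc P 1) (φ (FreeGroup.of x)) =
        e1.symm (QuotientGroup.mk' (lc (FreeGroup X) 1) (FreeGroup.of x))
      rw [← hb x]
      congr 1
      exact FreeGroup.lift_apply_of
    exact DFunLike.congr_fun h w
  have hinj1 : ∀ w, φ w ∈ lc P 1 → w ∈ lc (FreeGroup X) 1 := by
    intro w hw
    have h1 : QuotientGroup.mk' (lc P 1) (φ w) = 1 := (QuotientGroup.eq_one_iff _).2 hw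
    rw [hφ1] at h1
    have h2 : QuotientGroup.mk' (lc (FreeGroup X) 1) w = 1 := by
      rw [← map_one e1.symm] at h1
      exact e1.symm.injective h1
    exact (QuotientGroup.eq_one_iff _).1 h2
  have hsurj1 : ∀ g : P, ∃ w, (φ w)⁻¹ * g ∈ lc P 1 := by
    intro g
    obtain ⟨w, hw⟩ := QuotientGroup.mk'_surjective (lc (FreeGroup X) 1)
      (e1 (QuotientGroup.mk' (lc P 1) g))
    refine ⟨w, ?_⟩
    have h1 : QuotientGroup.mk' (lc P 1) (φ w) = QuotientGroup.mk' (lc P 1) g := by
      rw [hφ1, hw, MulEquiv.symm_apply_apply]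
    exact QuotientGroup.eq.1 h1
  refine ⟨φ, ?_, ?_⟩
  · intro n g
    have h1 : (φ.range).map (QuotientGroup.mk' (lc P n)) = ⊤ := by
      apply nil_gen
      rw [eq_top_iff]
      intro y _
      obtain ⟨g, rfl⟩ := QuotientGroup.mk'_surjective _ y
      obtain ⟨w, hw⟩ := hsurj1 g
      have h2 : g = φ w * ((φ w)⁻¹ * g) := by group
      rw [h2, map_mul]
      refine Subgroup.mul_mem_sup ⟨φ w, ⟨w, rfl⟩, rfl⟩ ?_
      have h3 := mk_mem_lc n 1 hw
      rwa [lc_one] at h3
    have h2 : QuotientGroup.mk' (lc P n) g ∈ (φ.range).map (QuotientGroup.mk' (lc P n)) := by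
      rw [h1]; trivial
    obtain ⟨_, ⟨w, rfl⟩, hw⟩ := h2
    exact ⟨w, QuotientGroup.eq.1 hw⟩
  · intro n w hw
    rcases n with _ | k
    · rw [lc_zero]; trivial
    obtain ⟨e⟩ := hP (k + 1)
    choose f0 hf0 using fun x : X => QuotientGroup.mk'_surjective (lc (FreeGroup X) (k + 1))
      (e (QuotientGroup.mk' (lc P (k + 1)) (b x)))
    let f : FreeGroup X →* FreeGroup X := FreeGroup.lift f0
    have hf : ∀ w, QuotientGroup.mk' (lc (FreeGroup X) (k + 1)) (f w) =
        e (QuotientGroup.mk' (lc P (k + 1)) (φ w)) := by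
      intro w
      have h : (QuotientGroup.mk' (lc (FreeGroup X) (k + 1))).comp f =
          e.toMonoidHom.comp ((QuotientGroup.mk' (lc P (k + 1))).comp φ) := by
        refine FreeGroup.ext_hom _ _ fun x => ?_
        change QuotientGroup.mk' (lc (FreeGroup X) (k + 1)) (f (FreeGroup.of x)) =
          e (QuotientGroup.mk' (lc P (k + 1)) (φ (FreeGroup.of x)))
        have e1 : f (FreeGroup.of x) = f0 x := FreeGroup.lift_apply_of
        have e2 : φ (FreeGroup.of x) = b x := FreeGroup.lift_apply_of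
        rw [e1, e2, hf0]
      exact DFunLike.congr_fun h w
    have hcom : ∀ w, f w ∈ commutator (FreeGroup X) → w ∈ commutator (FreeGroup X) := by
      intro w hw
      rw [← lc_one] at hw ⊢
      apply hinj1
      apply of_mk_mem_lc (n := k + 1) (by omega)
      have h1 := mk_mem_lc (k + 1) 1 hw
      rw [hf] at h1
      have h2 := lc_map_mem e.symm.toMonoidHom 1 h1
      have h3 : e.symm.toMonoidHom (e (QuotientGroup.mk' (lc P (k + 1)) (φ w))) =
          QuotientGroup.mk' (lc P (k + 1)) (φ w) := e.symm_apply_apply _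
      rwa [h3] at h2
    have h4 := Pool.Agent.H335PN.x_LEM1 X X f hcom (k + 1) w
    rw [← lc_eq_lcs] at h4
    apply h4
    have h5 : QuotientGroup.mk' (lc P (k + 1)) (φ w) = 1 := (QuotientGroup.eq_one_iff _).2 hw
    have h6 := hf w
    rw [h5, map_one] at h6
    exact (QuotientGroup.eq_one_iff _).1 h6

/-- Homomorphisms to nilpotent groups can be prescribed on a basis. -/
theorem t_PF : S_PF := by
  classical
  intro P X _ hP
  obtain ⟨φ, hs, hi⟩ := basis_facts P X hP
  refine ⟨fun x => φ (FreeGroup.of x), fun E _ _ e => ?_⟩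
  obtain ⟨n, hn⟩ : ∃ n, lc E n = ⊥ :=
    Subgroup.nilpotent_iff_lowerCentralSeries.1 inferInstance
  let ψ0 : FreeGroup X ⧸ lc (FreeGroup X) n →* P ⧸ lc P n :=
    QuotientGroup.map (lc (FreeGroup X) n) (lc P n) φ
      (fun w hw => lc_map_mem φ n hw)
  have hψ0 : Function.Bijective ψ0 := by
    constructor
    · rw [injective_iff_map_eq_one]
      intro y hy
      obtain ⟨w, rfl⟩ := QuotientGroup.mk'_surjective _ y
      have h1 : QuotientGroup.mk' (lc P n) (φ w) = 1 := hy
      exact (QuotientGroup.eq_one_iff _).2 (hi n w ((QuotientGroup.eq_one_iff _).1 h1))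
    · intro y
      obtain ⟨g, rfl⟩ := QuotientGroup.mk'_surjective _ y
      obtain ⟨w, hw⟩ := hs n g
      exact ⟨QuotientGroup.mk' _ w, QuotientGroup.eq.2 hw⟩
  let ψ : FreeGroup X ⧸ lc (FreeGroup X) n ≃* P ⧸ lc P n := MulEquiv.ofBijective ψ0 hψ0
  let hE : FreeGroup X ⧸ lc (FreeGroup X) n →* E :=
    QuotientGroup.lift _ (FreeGroup.lift e) (fun w hw => by
      have h1 := lc_map_mem (FreeGroup.lift e) n hw
      rw [hn] at h1
      exact h1)
  let h : P →* E := hE.comp (ψ.symm.toMonoidHom.comp (QuotientGroup.mk' (lc P n)))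
  have hh : ∀ x, h (φ (FreeGroup.of x)) = e x := by
    intro x
    have h1 : ψ.symm (QuotientGroup.mk' (lc P n) (φ (FreeGroup.of x))) =
        QuotientGroup.mk' (lc (FreeGroup X) n) (FreeGroup.of x) := by
      rw [MulEquiv.symm_apply_eq]
      rfl
    change hE (ψ.symm (QuotientGroup.mk' (lc P n) (φ (FreeGroup.of x)))) = e x
    rw [h1]
    exact FreeGroup.lift_apply_of
  have hlift : ∀ h' : P →* E, (∀ x, h' (φ (FreeGroup.of x)) = e x) → ∀ w,
      h' (φ w) = FreeGroup.lift e w := by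
    intro h' hh' w
    have h1 : h'.comp φ = FreeGroup.lift e := by
      refine FreeGroup.ext_hom _ _ fun x => ?_
      rw [FreeGroup.lift_apply_of]
      exact hh' x
    exact DFunLike.congr_fun h1 w
  refine ⟨h, hh, fun h' hh' => ?_⟩
  ext g
  obtain ⟨w, hw⟩ := hs n g
  have hkill : ∀ h' : P →* E, h' ((φ w)⁻¹ * g) = 1 := by
    intro h'
    have h1 := lc_map_mem h' n hw
    rw [hn] at h1
    exact h1
  have h2 : g = φ w * ((φ w)⁻¹ * g) := by group
  rw [h2, map_mul h', map_mul h, hkill, hkill, hlift h' hh', hlift h hh]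

/-- Parafree groups are residually finite-`p`. -/
theorem t_RP : S_RP := by
  classical
  intro P X _ hP hres p _ T
  have h : Pool.Agent.H335PN.RFp p P := by
    intro g hg
    obtain ⟨n, hn⟩ : ∃ n, g ∉ lc P n := by
      by_contra hcon
      push Not at hcon
      exact hg (hres g hcon)
    obtain ⟨e⟩ := hP n
    obtain ⟨x, hx⟩ := QuotientGroup.mk'_surjective (lc (FreeGroup X) n)
      (e (QuotientGroup.mk' (lc P n) g))
    have hx' : x ∉ lc (FreeGroup X) n := by
      intro h1
      have h2 : QuotientGroup.mk' (lc (FreeGroup X) n) x = 1 := (QuotientGroup.eq_one_iff _).2 h1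
      rw [hx, ← map_one e] at h2
      exact hn ((QuotientGroup.eq_one_iff _).1 (e.injective h2))
    obtain ⟨G, i1, i2, f, hG, hf1, hf2⟩ := t_RES X p n x hx'
    let f' : FreeGroup X ⧸ lc (FreeGroup X) n →* G := QuotientGroup.lift _ f hf1
    refine ⟨G, i1, i2, f'.comp (e.toMonoidHom.comp (QuotientGroup.mk' (lc P n))), hG, ?_⟩
    change f' (e (QuotientGroup.mk' (lc P n) g)) ≠ 1
    rw [← hx]
    exact hf2
  obtain ⟨Q, i1, i2, f, hQ, hf⟩ := Pool.Agent.H335PN.TRF.rfp_inj h T
  exact ⟨Q, i1, i2, f, hQ, fun a ha b hb hab => hf a ha b hb hab⟩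

/-- Rank at most one. -/
theorem t_CYC : S_CYC := by
  classical
  intro P X _ hP hres hX N hN
  obtain ⟨a, ha⟩ : ∃ a : FreeGroup X, ∀ w, w ∈ Subgroup.zpowers a := by
    rcases isEmpty_or_nonempty X with hE | ⟨⟨x⟩⟩
    · refine ⟨1, fun w => ?_⟩
      induction w using FreeGroup.induction_on with
      | C1 => exact one_mem _
      | of x => exact (hE.false x).elim
      | inv_of x h => exact inv_mem h
      | mul x y hx hy => exact mul_mem hx hy
    · refine ⟨FreeGroup.of x, fun w => ?_⟩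
      induction w using FreeGroup.induction_on with
      | C1 => exact one_mem _
      | of y =>
        rw [Subsingleton.elim y x]
        exact Subgroup.mem_zpowers _
      | inv_of x h => exact inv_mem h
      | mul x y hx hy => exact mul_mem hx hy
  have hcomm : ∀ v w : FreeGroup X, v * w = w * v := by
    intro v w
    obtain ⟨i, rfl⟩ := ha v
    obtain ⟨j, rfl⟩ := ha w
    exact (Commute.refl a).zpow_zpow i j
  have h1 : ∀ g ∈ lc P 1, g = 1 := by
    intro g hg
    apply hres
    intro n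
    obtain ⟨e⟩ := hP n
    have h2 : lc (FreeGroup X ⧸ lc (FreeGroup X) n) 1 = ⊥ := by
      rw [lc_one, eq_bot_iff, commutator_def, Subgroup.commutator_le]
      intro v _ w _
      obtain ⟨v, rfl⟩ := QuotientGroup.mk'_surjective _ v
      obtain ⟨w, rfl⟩ := QuotientGroup.mk'_surjective _ w
      rw [Subgroup.mem_bot, commutatorElement_eq_one_iff_mul_comm, ← map_mul, ← map_mul, hcomm]
    have h3 := lc_map_mem e.toMonoidHom 1 (mk_mem_lc n 1 hg)
    rw [h2, Subgroup.mem_bot] at h3
    have h4 : QuotientGroup.mk' (lc P n) g = 1 := by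
      have h5 : e (QuotientGroup.mk' (lc P n) g) = e 1 := by rw [map_one]; exact h3
      exact e.injective h5
    exact (QuotientGroup.eq_one_iff _).1 h4
  obtain ⟨e⟩ := hP 1
  obtain ⟨c, hc⟩ := QuotientGroup.mk'_surjective (lc P 1)
    (e.symm (QuotientGroup.mk' (lc (FreeGroup X) 1) a))
  have hP' : ∀ g : P, g ∈ Subgroup.zpowers c := by
    intro g
    obtain ⟨w, hw⟩ := QuotientGroup.mk'_surjective (lc (FreeGroup X) 1)
      (e (QuotientGroup.mk' (lc P 1) g))
    obtain ⟨i, rfl⟩ := ha w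
    refine ⟨i, ?_⟩
    have h2 : QuotientGroup.mk' (lc P 1) (c ^ i) = QuotientGroup.mk' (lc P 1) g := by
      rw [map_zpow, hc, ← map_zpow, ← map_zpow]
      rw [MulEquiv.symm_apply_eq]
      exact hw
    have h3 := h1 _ (QuotientGroup.eq.1 h2)
    have h4 : (c ^ i)⁻¹ * g = 1 := h3
    exact (inv_mul_eq_one.1 h4)
  obtain ⟨g, hg, hg1⟩ : ∃ g, g ∈ N ∧ g ≠ 1 := by
    obtain ⟨g, hg⟩ := Subgroup.ne_bot_iff_exists_ne_one.1 hN
    exact ⟨g.1, g.2, fun h => hg (Subtype.ext h)⟩
  obtain ⟨i, hi⟩ := hP' g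
  have hi0 : i ≠ 0 := by
    rintro rfl
    apply hg1
    rw [← hi]
    simp
  have hcomm' : ∀ v w : P, v * w = w * v := by
    intro v w
    obtain ⟨i, rfl⟩ := hP' v
    obtain ⟨j, rfl⟩ := hP' w
    exact (Commute.refl c).zpow_zpow i j
  haveI : N.Normal := ⟨fun n hn g => by rw [hcomm' g n, mul_inv_cancel_right]; exact hn⟩
  have h5 : IsOfFinOrder (QuotientGroup.mk' N c) := by
    rw [isOfFinOrder_iff_zpow_eq_one]
    refine ⟨i, hi0, ?_⟩
    rw [← map_zpow]
    have : c ^ i = g := hi
    rw [this]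
    exact (QuotientGroup.eq_one_iff _).2 hg
  have h6 := finite_zpowers.2 h5
  have h7 : Finite (P ⧸ N) := by
    refine Set.finite_univ_iff.1 (h6.subset ?_)
    intro y _
    obtain ⟨g, rfl⟩ := QuotientGroup.mk'_surjective _ y
    obtain ⟨j, rfl⟩ := hP' g
    exact ⟨j, by simp⟩
  exact Subgroup.index_ne_zero_iff_finite.2 h7

end Pool.Agent.U52.PN
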