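import Pool.Agent.U52.PN.Bound
import Pool.Agent.U52.PN.Pf
import Pool.Agent.U52.PN.Der

set_option autoImplicit false
set_option linter.unusedSectionVars false

/-!
# Finitely generated commensurated subgroups of parafree groups
-/

namespace Pool.Agent.U52.PN

open Pool.Agent.W649.ZL Pool.Agent.R684.PN

theorem torsion_free {P : Type} [Group P]
    (h : ∀ (p : ℕ) [Fact p.Prime] (T : Finset P), ∃ (G : Type) (_ : Group G) (_ : Finite G)
      (q : P →* G), IsPGroup p G ∧ Set.InjOn q T) (x : P) (hx : x ≠ 1) : ¬ IsOfFinOrder x := by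
  classical
  intro hfin
  have hpos : 0 < orderOf x := orderOf_pos_iff.2 hfin
  obtain ⟨p, hle, hp⟩ := Nat.exists_infinite_primes (orderOf x + 1)
  haveI : Fact p.Prime := ⟨hp⟩
  obtain ⟨G, _, _, q, hG, hq⟩ := h p {x, 1}
  have h1 : q x ≠ 1 := by
    intro h1
    apply hx
    refine hq (by simp) (by simp) ?_
    rw [h1, map_one]
  obtain ⟨k, hk⟩ := hG (q x)
  have h2 : orderOf (q x) ∣ orderOf x := orderOf_map_dvd q x
  have h3 : orderOf (q x) ∣ p ^ k := orderOf_dvd_of_pow_eq_one hk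
  have h4 : Nat.Coprime (p ^ k) (orderOf x) := by
    apply Nat.Coprime.pow_left
    rw [Nat.Prime.coprime_iff_not_dvd hp]
    intro h5
    have := Nat.le_of_dvd hpos h5
    omega
  have h5 : orderOf (q x) ∣ 1 := by
    have := Nat.dvd_gcd h3 h2
    rwa [h4] at this
  exact h1 (orderOf_eq_one_iff.1 (Nat.dvd_one.1 h5))

theorem basis_ne (P X : Type) [Group P] (b : X → P)
    (hb : ∀ (E : Type) [Group E] [Group.IsNilpotent E] (e : X → E), ∃! h : P →* E, ∀ x, h (b x) = e x)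
    (x₁ x₂ : X) (h12 : x₁ ≠ x₂) : b x₁ ≠ b x₂ := by
  classical
  intro h
  obtain ⟨f, hf, -⟩ := hb (Multiplicative (ZMod 2))
    (fun x => if x = x₁ then Multiplicative.ofAdd 1 else 1)
  have h1 := hf x₁
  have h2 := hf x₂
  rw [h] at h1
  rw [if_pos rfl] at h1
  rw [if_neg (Ne.symm h12)] at h2
  rw [h1] at h2
  exact absurd h2 (by decide)

/-- The conclusion for a group with enough quotients. -/
theorem general {P : Type} [Group P] (htf : ∀ x : P, x ≠ 1 → ¬ IsOfFinOrder x) (N : Subgroup P)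
    (hN : ∀ g : P, (N.map (MulAut.conj g).toMonoidHom).relIndex N ≠ 0) (hN1 : N ≠ ⊥)
    (Y : Finset P) (hY : Subgroup.closure (Y : Set P) = N) (a₁ a₂ : P) (ha : a₁ ≠ a₂)
    (hR : ∀ (Γ : Subgroup P) (h1 : a₁ ∈ Γ) (h2 : a₂ ∈ Γ), Γ.FG → Rich Γ ⟨a₁, h1⟩ ⟨a₂, h2⟩)
    (m : ℕ) (g : Fin m → P) (hg : ∀ t t' : Fin m, ∀ h ∈ N, g t * h = g t' → t = t') :
    m ≤ Y.card := by
  classical
  obtain ⟨n₀, hn₀, hn₀1⟩ : ∃ g, g ∈ N ∧ g ≠ 1 := by
    obtain ⟨g, hg⟩ := Subgroup.ne_bot_iff_exists_ne_one.1 hN1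
    exact ⟨g.1, g.2, fun h => hg (Subtype.ext h)⟩
  let A : Finset P := Y ∪ {a₁, a₂} ∪ Finset.univ.image g
  let W : Finset P := A ∪ A.image (·⁻¹)
  have hW : ∀ w ∈ W, w⁻¹ ∈ W := by
    intro w hw
    rcases Finset.mem_union.1 hw with h | h
    · exact Finset.mem_union_right _ (Finset.mem_image_of_mem _ h)
    · obtain ⟨v, hv, rfl⟩ := Finset.mem_image.1 h
      rw [inv_inv]
      exact Finset.mem_union_left _ hv
  have hYA : ∀ y ∈ Y, y ∈ W := fun y hy =>
    Finset.mem_union_left _ (Finset.mem_union_left _ (Finset.mem_union_left _ hy))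
  have ha₁ : a₁ ∈ W := Finset.mem_union_left _ (Finset.mem_union_left _
    (Finset.mem_union_right _ (by simp)))
  have ha₂ : a₂ ∈ W := Finset.mem_union_left _ (Finset.mem_union_left _
    (Finset.mem_union_right _ (by simp)))
  have hgW : ∀ t, g t ∈ W := fun t => Finset.mem_union_left _
    (Finset.mem_union_right _ (Finset.mem_image_of_mem _ (Finset.mem_univ _)))
  obtain ⟨Γ, hΓ⟩ : ∃ Γ : Subgroup P, Subgroup.closure (W : Set P) = Γ := ⟨_, rfl⟩
  have hsub : ∀ w ∈ W, w ∈ Γ := fun w hw => by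
    rw [← hΓ]; exact Subgroup.subset_closure hw
  have hNΓ : N ≤ Γ := by
    rw [← hY, Subgroup.closure_le]
    exact fun y hy => hsub y (hYA y hy)
  obtain ⟨σ, hσ1, hσ2⟩ := exists_words W hW Γ hΓ
  have hfgΓ : Γ.FG := ⟨W, hΓ⟩
  have hc : ∀ g : Γ, ((N.subgroupOf Γ).map (MulAut.conj g).toMonoidHom).relIndex (N.subgroupOf Γ)
      ≠ 0 := by
    intro g
    have h1 : (N.subgroupOf Γ).map (MulAut.conj g).toMonoidHom =
        (N.map (MulAut.conj (g : P)).toMonoidHom).subgroupOf Γ := by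
      ext x
      constructor
      · rintro ⟨y, hy, rfl⟩
        exact ⟨(y : P), hy, rfl⟩
      · rintro ⟨y, hy, hyx⟩
        have hy' : y ∈ Γ := hNΓ hy
        refine ⟨⟨y, hy'⟩, hy, Subtype.ext ?_⟩
        exact hyx
    rw [h1, Subgroup.relIndex_subgroupOf hNΓ]
    exact hN g
  have hcl : Subgroup.closure (Set.range fun y : Y => (⟨y.1, hsub _ (hYA _ y.2)⟩ : Γ)) =
      N.subgroupOf Γ := by
    apply Subgroup.map_injective Γ.subtype_injective
    rw [Subgroup.subgroupOf_map_subtype, inf_eq_left.2 hNΓ, MonoidHom.map_closure, ← hY]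
    congr 1
    ext x
    constructor
    · rintro ⟨_, ⟨y, rfl⟩, rfl⟩
      exact y.2
    · intro hx
      exact ⟨_, ⟨⟨x, hx⟩, rfl⟩, rfl⟩
  have key := index_bound (J := Y) σ hσ2 ⟨a₁, ha₁⟩ ⟨a₂, ha₂⟩
    (fun h => ha (congrArg Subtype.val h)) ?_ (N.subgroupOf Γ) hc
    (fun y : Y => (⟨y.1, hsub _ (hYA _ y.2)⟩ : Γ)) hcl ⟨n₀, hNΓ hn₀⟩ hn₀ ?_ m
    (fun t => ⟨g t, hsub _ (hgW t)⟩) ?_
  · simpa using key
  · have e1 : σ ⟨a₁, ha₁⟩ = ⟨a₁, hsub _ ha₁⟩ := Subtype.ext (hσ1 _)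
    have e2 : σ ⟨a₂, ha₂⟩ = ⟨a₂, hsub _ ha₂⟩ := Subtype.ext (hσ1 _)
    rw [e1, e2]
    exact hR Γ _ _ hfgΓ
  · intro h
    apply htf n₀ hn₀1
    exact MonoidHom.isOfFinOrder Γ.subtype h
  · intro t t' h hh hht
    exact hg t t' h hh (congrArg Subtype.val hht)

/-- A finitely generated non-trivial commensurated subgroup of a parafree group has finite
index. -/
theorem main (P X : Type) [Group P] (hP : SameLCQ P X) (hres : ResNil P) (N : Subgroup P)
    (hN : ∀ g : P, (N.map (MulAut.conj g).toMonoidHom).relIndex N ≠ 0) (hN1 : N ≠ ⊥)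
    (hfg : N.FG) : N.index ≠ 0 := by
  classical
  rcases subsingleton_or_nontrivial X with hX | ⟨⟨x₁, x₂, h12⟩⟩
  · exact t_CYC P X hP hres hX N hN1
  obtain ⟨b, hb⟩ := t_PF P X hP
  intro hind
  obtain ⟨Y, hY⟩ := hfg
  have hinf : Infinite (P ⧸ N) := by
    by_contra hcon
    rw [not_infinite_iff_finite] at hcon
    exact Subgroup.index_ne_zero_iff_finite.2 hcon hind
  obtain ⟨f⟩ : Nonempty (Fin (Y.card + 1) ↪ P ⧸ N) := by
    have := Infinite.natEmbedding (P ⧸ N)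
    exact ⟨(Fin.valEmbedding).trans this⟩
  have key := general (torsion_free fun p _ T => t_RP P X hP hres p T) N hN hN1 Y hY (b x₁) (b x₂)
    (basis_ne P X b hb x₁ x₂ h12) ?_ (Y.card + 1) (fun t => (f t).out) ?_
  · omega
  · intro Γ h1 h2 _ T
    haveI : Fact (Nat.Prime 2) := ⟨Nat.prime_two⟩
    obtain ⟨G, i1, i2, q, hG, hq⟩ := t_RP P X hP hres 2 (T.image Subtype.val)
    refine ⟨G, i1, i2, q.comp Γ.subtype, ?_, ?_⟩
    · intro u hu v hv huv
      apply Subtype.ext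
      refine hq ?_ ?_ huv
      · exact Finset.mem_coe.2 (Finset.mem_image_of_mem _ hu)
      · exact Finset.mem_coe.2 (Finset.mem_image_of_mem _ hv)
    · intro e₁ e₂
      obtain ⟨c, hc, hc1, hc2⟩ := t_DER P X b hb 2 G hG q x₁ x₂ h12 e₁ e₂
      exact ⟨fun g => c g, fun g h x => hc g h x, hc1, hc2⟩
  · intro t t' h hh htt
    apply f.injective
    rw [← QuotientGroup.out_eq' (f t), ← QuotientGroup.out_eq' (f t')]
    rw [QuotientGroup.eq]
    have : ((f t).out)⁻¹ * (f t').out = h := by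
      rw [← htt]
      group
    rw [this]
    exact hh

end Pool.Agent.U52.PN
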