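import Pool.Agent.R684.PN.Stm
import Pool.Agent.H335PN.All

set_option autoImplicit false
set_option linter.unusedSectionVars false

/-!
# Parafree groups: prescribed homomorphisms to nilpotent groups, residual properties
-/

namespace Pool.Agent.U52.PN

open Pool.Agent.R684.PN
open scoped commutatorElement

/-- A subgroup of a nilpotent group which generates it modulo the commutator subgroup is
everything. -/
theorem nil_gen (Q : Type) [Group Q] [Group.IsNilpotent Q] (H : Subgroup Q)
    (h : H ⊔ commutator Q = ⊤) : H = ⊤ := by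
  revert H
  refine @Group.nilpotent_center_quotient_ind
    (fun Q _ _ => ∀ H : Subgroup Q, H ⊔ commutator Q = ⊤ → H = ⊤) Q _ _ ?_ ?_
  · intro Q _ _ H _
    exact Subsingleton.elim _ _
  · intro Q _ _ ih H h
    have h1 : H.map (QuotientGroup.mk' (Subgroup.center Q)) = ⊤ := by
      apply ih
      have h2 := congrArg (Subgroup.map (QuotientGroup.mk' (Subgroup.center Q))) h
      rw [Subgroup.map_sup, Subgroup.map_top_of_surjective _ (QuotientGroup.mk'_surjective _)] at h2
      rw [← top_le_iff, ← h2]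
      refine sup_le_sup_left ?_ _
      rw [commutator_def, Subgroup.map_commutator, commutator_def]
      exact Subgroup.commutator_mono le_top le_top
    have h2 : ∀ x : Q, ∃ y ∈ H, ∃ z ∈ Subgroup.center Q, x = y * z := by
      intro x
      have h3 : QuotientGroup.mk' (Subgroup.center Q) x ∈
          H.map (QuotientGroup.mk' (Subgroup.center Q)) := by rw [h1]; trivial
      obtain ⟨y, hy, hyx⟩ := h3
      refine ⟨y, hy, y⁻¹ * x, ?_, by group⟩
      exact QuotientGroup.eq.1 hyx
    have h3 : commutator Q ≤ H := by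
      rw [commutator_def, Subgroup.commutator_le]
      intro x _ y _
      obtain ⟨a, ha, z, hz, rfl⟩ := h2 x
      obtain ⟨c, hc, w, hw, rfl⟩ := h2 y
      have e : ⁅a * z, c * w⁆ = ⁅a, c⁆ := by
        rw [commutatorElement_def, commutatorElement_def]
        have hz' := Subgroup.mem_center_iff.1 hz
        have hw' := Subgroup.mem_center_iff.1 hw
        have hz2 : ∀ g, g * z⁻¹ = z⁻¹ * g := fun g => by
          have := Subgroup.mem_center_iff.1 (inv_mem hz) g
          exact this
        have hw2 : ∀ g, g * w⁻¹ = w⁻¹ * g := fun g => by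
          have := Subgroup.mem_center_iff.1 (inv_mem hw) g
          exact this
        rw [mul_inv_rev, mul_inv_rev]
        calc a * z * (c * w) * (z⁻¹ * a⁻¹) * (w⁻¹ * c⁻¹)
            = a * (z * (c * w)) * z⁻¹ * a⁻¹ * w⁻¹ * c⁻¹ := by group
          _ = a * ((c * w) * z) * z⁻¹ * a⁻¹ * w⁻¹ * c⁻¹ := by rw [hz' (c * w)]
          _ = a * c * (w * (a⁻¹ * w⁻¹)) * c⁻¹ := by group
          _ = a * c * (w * (w⁻¹ * a⁻¹)) * c⁻¹ := by rw [hw2 a⁻¹]
          _ = a * c * a⁻¹ * c⁻¹ := by group
      rw [e, commutatorElement_def]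
      exact H.mul_mem (H.mul_mem (H.mul_mem ha hc) (H.inv_mem ha)) (H.inv_mem hc)
    rw [← h]
    exact (sup_eq_left.2 h3).symm

theorem lc_succ {G : Type} [Group G] (n : ℕ) : lc G (n + 1) = ⁅lc G n, (⊤ : Subgroup G)⁆ := rfl

theorem lc_zero {G : Type} [Group G] : lc G 0 = ⊤ := rfl

theorem lc_eq_lcs {G : Type} [Group G] (n : ℕ) :
    lc G n = Pool.Agent.H335PN.lcs (⊤ : Subgroup G) n := by
  induction n with
  | zero => rfl
  | succ n ih =>
    rw [lc_succ, ih]
    rfl

theorem lc_one {G : Type} [Group G] : lc G 1 = commutator G := by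
  rw [commutator_def]
  rfl

theorem lc_anti {G : Type} [Group G] {m n : ℕ} (h : m ≤ n) : lc G n ≤ lc G m :=
  Subgroup.lowerCentralSeries_antitone _ h

theorem lc_map {G H : Type} [Group G] [Group H] (f : G →* H) (n : ℕ) :
    (lc G n).map f ≤ lc H n := by
  unfold lc
  rw [Subgroup.map_lowerCentralSeries]
  exact Subgroup.lowerCentralSeries_mono n le_top

theorem lc_map_mem {G H : Type} [Group G] [Group H] (f : G →* H) (n : ℕ) {g : G}
    (hg : g ∈ lc G n) : f g ∈ lc H n := lc_map f n (Subgroup.mem_map_of_mem f hg)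

theorem lc_map_surj {G H : Type} [Group G] [Group H] (f : G →* H) (hf : Function.Surjective f)
    (n : ℕ) : (lc G n).map f = lc H n := by
  unfold lc
  rw [Subgroup.map_lowerCentralSeries, Subgroup.map_top_of_surjective _ hf]

instance lc_normal (G : Type) [Group G] (n : ℕ) : (lc G n).Normal := by
  unfold lc
  infer_instance

/-- the quotients are nilpotent -/
instance nilp_quot (G : Type) [Group G] (n : ℕ) : Group.IsNilpotent (G ⧸ lc G n) := by
  rw [Subgroup.nilpotent_iff_lowerCentralSeries]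
  refine ⟨n, ?_⟩
  have h := lc_map_surj (QuotientGroup.mk' (lc G n)) (QuotientGroup.mk'_surjective _) n
  change lc (G ⧸ lc G n) n = ⊥
  rw [← h, eq_bot_iff]
  rintro _ ⟨x, hx, rfl⟩
  exact (QuotientGroup.eq_one_iff x).2 hx

/-- Free groups modulo a term of the lower central series are residually finite-`p`. -/
theorem t_RES : S_RES := by
  classical
  intro X p hp n x hx
  have hMAG := Pool.Agent.H335PN.x_MAG2 X n
  rw [lc_eq_lcs, hMAG] at hx
  push Not at hx
  obtain ⟨L, hL⟩ := hx
  obtain ⟨i, j, hij⟩ : ∃ i j, ((Pool.Agent.H335PN.rep ℤ L x : (Matrix (Fin (n + 1)) (Fin (n + 1)) ℤ)ˣ) :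
      Matrix (Fin (n + 1)) (Fin (n + 1)) ℤ) i j - (1 : Matrix (Fin (n + 1)) (Fin (n + 1)) ℤ) i j ≠ 0 := by
    by_contra hcon
    push Not at hcon
    apply hL
    apply Units.ext
    ext i j
    exact sub_eq_zero.1 (hcon i j)
  obtain ⟨m, hm⟩ := Pool.Agent.H335PN.TRF.exists_pow_not_dvd (Fact.out : p.Prime) _ hij
  have hk : ((p ^ m : ℕ) : ZMod (p ^ m)) = 0 := ZMod.natCast_self _
  haveI : NeZero (p ^ m) := ⟨pow_ne_zero _ (Fact.out : p.Prime).ne_zero⟩
  let U := Pool.Agent.H335PN.TRF.UT (ZMod (p ^ m)) n p m (Fact.out : p.Prime) hk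
  let f : FreeGroup X →* U := (Pool.Agent.H335PN.rep (ZMod (p ^ m)) L).codRestrict U
    (fun u => Pool.Agent.H335PN.TRF.rep_mem (Fact.out : p.Prime) hk L u)
  refine ⟨U, inferInstance, inferInstance, f, ?_, ?_, ?_⟩
  · intro u
    refine ⟨m + n, ?_⟩
    apply Subtype.ext
    apply Units.ext
    exact Pool.Agent.H335PN.TRF.unip_pow (Fact.out : p.Prime) hk u.2
  · intro y hy
    rw [lc_eq_lcs, hMAG] at hy
    apply Subtype.ext
    change Pool.Agent.H335PN.rep (ZMod (p ^ m)) L y = 1
    rw [Pool.Agent.H335PN.TRF.rep_base, hy L, map_one]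
  · intro h
    have h1 : Pool.Agent.H335PN.rep (ZMod (p ^ m)) L x = 1 := congrArg Subtype.val h
    rw [Pool.Agent.H335PN.TRF.rep_base] at h1
    have h2 := congrArg (fun u : (Matrix (Fin (n + 1)) (Fin (n + 1)) (ZMod (p ^ m)))ˣ =>
      (u : Matrix (Fin (n + 1)) (Fin (n + 1)) (ZMod (p ^ m))) i j) h1
    have h3 := Pool.Agent.H335PN.TRF.base_entry p m _ hm
    apply h3
    rw [Int.cast_sub, sub_eq_zero]
    have h4 : (((1 : Matrix (Fin (n + 1)) (Fin (n + 1)) ℤ) i j : ℤ) : ZMod (p ^ m)) =
        (1 : Matrix (Fin (n + 1)) (Fin (n + 1)) (ZMod (p ^ m))) i j := by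
      by_cases h5 : i = j
      · subst h5; simp
      · simp [Matrix.one_apply_ne h5]
    rw [h4]
    exact h2

end Pool.Agent.U52.PN
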